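import Pool.Agent.H54.TS.Defs

/-!
# Project TS (MP_4b578b_co), module N2 (helper31): shift graphs of uncountable chromatic number
whose small subgraphs are bipartite
-/

set_option autoImplicit false

universe u v w

namespace Pool.Agent.H54.TS

namespace Shift

/-- The tower of power sets over `ℕ`. -/
def Tow : ℕ → Type
  | 0 => ℕ
  | n + 1 => Set (Tow n)

/-- A colouring of the shift graph on `n`-tuples gives one on `(n-1)`-tuples with sets of
colours. -/
theorem step {X : Type u} [LinearOrder X] {C : Type v} (n : ℕ) (f : (Fin (n + 2) → X) → C)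
    (hf : ∀ z : Fin (n + 3) → X, StrictMono z → f (Fin.init z) ≠ f (Fin.tail z)) :
    ∃ g : (Fin (n + 1) → X) → Set C,
      ∀ z : Fin (n + 2) → X, StrictMono z → g (Fin.init z) ≠ g (Fin.tail z) := by
  refine ⟨fun x => {c | ∃ w : Fin (n + 2) → X, StrictMono w ∧ Fin.init w = x ∧ f w = c}, ?_⟩
  intro z hz heq
  have h1 : f z ∈ {c | ∃ w : Fin (n + 2) → X, StrictMono w ∧ Fin.init w = Fin.init z ∧ f w = c} :=
    ⟨z, hz, rfl, rfl⟩
  simp only at heq
  rw [heq] at h1
  obtain ⟨w, hw, hwz, hfw⟩ := h1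
  have h0 : z 0 < w 0 := by
    have : w 0 = z 1 := congrFun hwz 0
    rw [this]
    exact hz (by rw [Fin.lt_def]; simp)
  have hmono : StrictMono (Fin.cons (z 0) w : Fin (n + 3) → X) := by
    rw [Fin.strictMono_iff_lt_succ]
    intro i
    refine Fin.cases ?_ (fun j => ?_) i
    · simpa using h0
    · have : (Fin.succ j).castSucc = (Fin.castSucc j).succ := rfl
      rw [this, Fin.cons_succ, Fin.cons_succ]
      exact hw (by rw [Fin.lt_def]; simp)
  have hinit : Fin.init (Fin.cons (z 0) w : Fin (n + 3) → X) = z := by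
    funext i
    refine Fin.cases ?_ (fun j => ?_) i
    · rfl
    · show (Fin.cons (z 0) w : Fin (n + 3) → X) (Fin.succ j).castSucc = z j.succ
      have : (Fin.succ j).castSucc = (Fin.castSucc j).succ := rfl
      rw [this, Fin.cons_succ]
      exact congrFun hwz j
  have htail : Fin.tail (Fin.cons (z 0) w : Fin (n + 3) → X) = w := Fin.tail_cons _ _
  refine hf _ hmono ?_
  rw [hinit, htail, hfw]

theorem no_colouring (n : ℕ) : ∀ (X : Type u) [LinearOrder X] (m : ℕ),
    (∃ f : (Fin (n + 1) → X) → Tow m,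
      ∀ z : Fin (n + 2) → X, StrictMono z → f (Fin.init z) ≠ f (Fin.tail z)) →
    ∃ g : X → Tow (m + n), Function.Injective g := by
  induction n with
  | zero =>
    intro X _ m ⟨f, hf⟩
    refine ⟨fun x => f (fun _ => x), ?_⟩
    have key : ∀ x y : X, x < y → f (fun _ => x) ≠ f (fun _ => y) := by
      intro x y hxy
      have hm : StrictMono (![x, y] : Fin 2 → X) := by
        rw [Fin.strictMono_iff_lt_succ]
        intro i
        fin_cases i
        simpa using hxy
      have h := hf ![x, y] hm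
      have h1 : Fin.init (![x, y] : Fin 2 → X) = fun _ => x := by
        funext i
        fin_cases i
        rfl
      have h2 : Fin.tail (![x, y] : Fin 2 → X) = fun _ => y := by
        funext i
        fin_cases i
        rfl
      rwa [h1, h2] at h
    intro x y hxy
    by_contra hne
    rcases lt_or_gt_of_ne hne with h | h
    · exact key x y h hxy
    · exact key y x h hxy.symm
  | succ n ih =>
    intro X _ m ⟨f, hf⟩
    obtain ⟨g, hg⟩ := step n f hf
    have := ih X (m + 1) ⟨g, hg⟩
    rwa [show m + 1 + n = m + (n + 1) by ring] at this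

/-- The shift graph on `n`-tuples. -/
def G (X : Type u) [LinearOrder X] (n : ℕ) : SimpleGraph (Fin (n + 1) → X) where
  Adj x y := (∃ z : Fin (n + 2) → X, StrictMono z ∧ x = Fin.init z ∧ y = Fin.tail z) ∨
    (∃ z : Fin (n + 2) → X, StrictMono z ∧ y = Fin.init z ∧ x = Fin.tail z)
  symm := ⟨fun _ _ h => h.symm⟩
  loopless := ⟨fun x h => by
    have key : ¬ ∃ z : Fin (n + 2) → X, StrictMono z ∧ x = Fin.init z ∧ x = Fin.tail z := by
      rintro ⟨z, hz, h1, h2⟩
      have h3 : Fin.init z 0 = Fin.tail z 0 := by rw [← h1, ← h2]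
      have h4 : z 0 < z 1 := hz (by rw [Fin.lt_def]; simp)
      exact absurd h3 (ne_of_lt h4)
    rcases h with h | h
    · exact key h
    · exact key h⟩

theorem walk_val {X : Type u} [LinearOrder X] {k : ℕ} {W : Type v} (H : SimpleGraph W)
    (φ : W → (Fin (2 * k + 1) → X)) (hφ : ∀ x y, H.Adj x y → (G X (2 * k)).Adj (φ x) (φ y))
    {x y : W} (p : H.Walk x y) : ∀ i : ℕ, ∀ hi : i < 2 * k + 1, i + p.length < 2 * k + 1 →
      p.length ≤ i → ∃ (j : ℕ) (hj : j < 2 * k + 1), j ≤ i + p.length ∧ i ≤ j + p.length ∧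
        φ y ⟨j, hj⟩ = φ x ⟨i, hi⟩ := by
  induction p with
  | nil =>
    intro i hi _ _
    exact ⟨i, hi, by simp, by simp, rfl⟩
  | @cons x w y h p ih =>
    intro i hi h1 h2
    rw [SimpleGraph.Walk.length_cons] at h1 h2
    rcases hφ _ _ h with ⟨z, -, hx, hw⟩ | ⟨z, -, hw, hx⟩
    · obtain ⟨i', rfl⟩ : ∃ i', i = i' + 1 := ⟨i - 1, by omega⟩
      obtain ⟨j, hj, h3, h4, h5⟩ := ih i' (by omega) (by omega) (by omega)
      refine ⟨j, hj, ?_, ?_, ?_⟩
      · rw [SimpleGraph.Walk.length_cons]; omega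
      · rw [SimpleGraph.Walk.length_cons]; omega
      · rw [h5, hx, hw]
        rfl
    · obtain ⟨j, hj, h3, h4, h5⟩ := ih (i + 1) (by omega) (by omega) (by omega)
      refine ⟨j, hj, ?_, ?_, ?_⟩
      · rw [SimpleGraph.Walk.length_cons]; omega
      · rw [SimpleGraph.Walk.length_cons]; omega
      · rw [h5, hx, hw]
        rfl

theorem parity_iff {X : Type u} {n : ℕ} (a : Fin n → X) (ha : Function.Injective a) (i : Fin n) :
    (∃ j : Fin n, Even j.val ∧ a j = a i) ↔ Even i.val := by
  constructor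
  · rintro ⟨j, h1, h2⟩
    rwa [ha h2] at h1
  · intro h
    exact ⟨i, h, rfl⟩

theorem two_colour {X : Type u} [LinearOrder X] {k : ℕ} {W : Type v} [Finite W]
    (H : SimpleGraph W) (φ : W → (Fin (2 * k + 1) → X)) (hk : Nat.card W ≤ k)
    (hφ : ∀ x y, H.Adj x y → (G X (2 * k)).Adj (φ x) (φ y)) :
    ∃ c : W → Bool, ∀ x y, H.Adj x y → c x ≠ c y := by
  classical
  let r : W → W := fun x => (H.connectedComponentMk x).out
  have hr : ∀ x, H.Reachable (r x) x := fun x => by
    rw [← SimpleGraph.ConnectedComponent.eq]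
    exact Quot.out_eq _
  have hreq : ∀ x y, H.Adj x y → r x = r y := fun x y h => by
    have : H.connectedComponentMk x = H.connectedComponentMk y :=
      SimpleGraph.ConnectedComponent.eq.2 h.reachable
    simp only [r, this]
  have hval : ∀ x, ∃ (j : ℕ) (hj : j < 2 * k + 1), j < 2 * k ∧ 1 ≤ j ∧
      φ x ⟨j, hj⟩ = φ (r x) ⟨k, by omega⟩ := by
    intro x
    obtain ⟨p, hp⟩ := (hr x).exists_isPath
    have : Fintype W := Fintype.ofFinite W
    have hl : p.length < k := by
      have := hp.length_lt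
      rw [← Nat.card_eq_fintype_card] at this
      omega
    obtain ⟨j, hj, h1, h2, h3⟩ := walk_val H φ hφ p k (by omega) (by omega) (by omega)
    exact ⟨j, hj, by omega, by omega, h3⟩
  let c : W → Bool := fun x =>
    decide (∃ j : Fin (2 * k + 1), Even j.val ∧ φ x j = φ (r x) ⟨k, by omega⟩)
  have key : ∀ x y, r x = r y → (∃ z : Fin (2 * k + 2) → X, StrictMono z ∧ φ x = Fin.init z ∧
      φ y = Fin.tail z) → c x ≠ c y := by
    rintro x y hxy ⟨z, hz, hx, hy⟩
    obtain ⟨j, hj, h1, h2, h3⟩ := hval x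
    obtain ⟨i, rfl⟩ : ∃ i, j = i + 1 := ⟨j - 1, by omega⟩
    have h4 : φ y ⟨i, by omega⟩ = φ (r y) ⟨k, by omega⟩ := by
      rw [← hxy, ← h3, hx, hy]
      rfl
    have hxi : Function.Injective (φ x) := by
      rw [hx]
      intro a b hab
      exact Fin.castSucc_injective _ (hz.injective hab)
    have hyi : Function.Injective (φ y) := by
      rw [hy]
      intro a b hab
      exact Fin.succ_injective _ (hz.injective hab)
    intro hc
    have hcx : c x = decide (Even (i + 1)) := by
      simp only [c]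
      rw [← h3]
      exact decide_eq_decide.2 (parity_iff (φ x) hxi ⟨i + 1, hj⟩)
    have hcy : c y = decide (Even i) := by
      simp only [c]
      rw [← h4]
      exact decide_eq_decide.2 (parity_iff (φ y) hyi ⟨i, by omega⟩)
    rw [hcx, hcy, decide_eq_decide, Nat.even_add_one] at hc
    tauto
  refine ⟨c, fun x y h => ?_⟩
  rcases hφ x y h with h1 | h1
  · exact key x y (hreq x y h) h1
  · exact (key y x (hreq x y h).symm h1).symm

end Shift

/-- N2 -/
theorem exists_graph (k : ℕ) : ∃ (Ω : Type u) (G : SimpleGraph Ω),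
    (¬ ∃ c : Ω → ℕ, ∀ x y, G.Adj x y → c x ≠ c y) ∧
    ∀ (W : Type v) [Finite W] (H : SimpleGraph W) (φ : W → Ω), Nat.card W ≤ k →
      (∀ x y, H.Adj x y → G.Adj (φ x) (φ y)) → ∃ c : W → Bool, ∀ x y, H.Adj x y → c x ≠ c y := by
  classical
  let X : Type u := ULift.{u} (Set (Shift.Tow (0 + 2 * k)))
  let _ : LinearOrder X := linearOrderOfSTO (WellOrderingRel (α := X))
  refine ⟨Fin (2 * k + 1) → X, Shift.G X (2 * k), ?_, ?_⟩
  · rintro ⟨c, hc⟩
    obtain ⟨g, hg⟩ := Shift.no_colouring (2 * k) X 0 ⟨c, fun z hz =>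
      hc _ _ (Or.inl ⟨z, hz, rfl, rfl⟩)⟩
    exact Function.cantor_injective (fun s => g (ULift.up s)) fun a b hab =>
      ULift.up_injective (hg hab)
  · intro W _ H φ hk hφ
    exact Shift.two_colour H φ hk hφ

end Pool.Agent.H54.TS
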